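import Mathlib

/-!
# MP_fafee5_lc, Q1: automatic continuity without automatic homeomorphicity

`Ω` is a countably infinite set, `Ω^Ω` is the monoid of all its self-maps with the topology of
pointwise convergence (`Ω` discrete).  `𝓜` is the class of closed submonoids of `Ω^Ω`.

We prove that some member of `𝓜` has automatic continuity with respect to `𝓜` but does not have
automatic homeomorphicity with respect to `𝓜`: the identity together with all constant maps.
-/

namespace Pool.Agent.Results.MP_fafee5_lc.DiscreteExample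

/-- The topology of pointwise convergence on `Ω^Ω`, with `Ω` discrete. -/
instance pointwise (Ω : Type*) : TopologicalSpace (Function.End Ω) :=
  @Pi.topologicalSpace Ω (fun _ => Ω) (fun _ => ⊥)

/-- Membership in the class `𝓜` of closed submonoids of `Ω^Ω`. -/
def IsClosedMonoid {Ω : Type*} (S : Submonoid (Function.End Ω)) : Prop :=
  IsClosed (S : Set (Function.End Ω))

/-- Automatic continuity with respect to `𝓜`: every semigroup homomorphism to a member of `𝓜`
is continuous. -/
def AutomaticContinuity {Ω : Type*} (S : Submonoid (Function.End Ω)) : Prop :=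
  ∀ T : Submonoid (Function.End Ω), IsClosedMonoid T → ∀ φ : S →ₙ* T, Continuous φ

/-- Automatic homeomorphicity with respect to `𝓜`: every semigroup isomorphism onto a member of
`𝓜` is a homeomorphism. -/
def AutomaticHomeomorphicity {Ω : Type*} (S : Submonoid (Function.End Ω)) : Prop :=
  ∀ T : Submonoid (Function.End Ω), IsClosedMonoid T → ∀ φ : S ≃* T, IsHomeomorph φ

open Filter Topology

section basics

variable {Ω : Type*}

theorem tendsto_iff {X : Type*} (U : Filter X) (f : X → Function.End Ω) (g : Function.End Ω) :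
    Tendsto f U (𝓝 g) ↔ ∀ a, ∀ᶠ x in U, f x a = g a := by
  let _ : TopologicalSpace Ω := ⊥
  have _ : DiscreteTopology Ω := ⟨rfl⟩
  have h := @tendsto_pi_nhds X Ω (fun _ => Ω) _ (fun x => (f x : Ω → Ω)) (g : Ω → Ω) U
  refine Iff.trans h ?_
  refine forall_congr' fun a => ?_
  rw [nhds_discrete, tendsto_pure]

theorem isClosed_of (S : Submonoid (Function.End Ω))
    (h : ∀ g : Function.End Ω, (∀ B : Finset Ω, ∃ r ∈ S, ∀ b ∈ B, r b = g b) → g ∈ S) :
    IsClosedMonoid S := by
  refine isClosed_of_closure_subset fun g hg => h g fun B => ?_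
  rw [mem_closure_iff_frequently] at hg
  have h1 : ∀ᶠ r in 𝓝 g, ∀ b ∈ B, r b = g b := by
    rw [Filter.eventually_all_finset]
    exact fun b _ => (tendsto_iff (𝓝 g) id g).1 tendsto_id b
  obtain ⟨r, hr, hrB⟩ := (hg.and_eventually h1).exists
  exact ⟨r, hr, hrB⟩

end basics

section example_

variable {Ω : Type*}

/-- The identity and all constant maps. -/
def S₀ (Ω : Type*) : Submonoid (Function.End Ω) where
  carrier := {g | g = 1 ∨ ∃ a : Ω, g = fun _ => a}
  one_mem' := Or.inl rfl
  mul_mem' := by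
    rintro f g (rfl | ⟨a, rfl⟩) hg
    · rw [one_mul]; exact hg
    · exact Or.inr ⟨a, rfl⟩

/-- `ρ e a`, in the coordinates given by `e : Ω ≃ ℕ`: both `2 i` and `2 i + 1` go to `2 i`, except
that they go to `2 i + 1` when `i + 1 = e a`. -/
def ρ (e : Ω ≃ ℕ) (a : Ω) : Function.End Ω :=
  fun x => e.symm (2 * (e x / 2) + if e x / 2 + 1 = e a then 1 else 0)

theorem ρ_mul (e : Ω ≃ ℕ) (a b : Ω) : ρ e a * ρ e b = ρ e a := by
  funext x
  change ρ e a (ρ e b x) = ρ e a x
  have h : e (ρ e b x) / 2 = e x / 2 := by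
    unfold ρ
    rw [Equiv.apply_symm_apply]
    split_ifs <;> omega
  unfold ρ at h ⊢
  rw [h]

/-- The identity and all maps `ρ e a`. -/
def T₀ (e : Ω ≃ ℕ) : Submonoid (Function.End Ω) where
  carrier := {g | g = 1 ∨ ∃ a : Ω, g = ρ e a}
  one_mem' := Or.inl rfl
  mul_mem' := by
    rintro f g (rfl | ⟨a, rfl⟩) hg
    · rw [one_mul]; exact hg
    · rcases hg with rfl | ⟨b, rfl⟩
      · rw [mul_one]; exact Or.inr ⟨a, rfl⟩
      · exact Or.inr ⟨a, ρ_mul e a b⟩

theorem ρ_ne_one (e : Ω ≃ ℕ) (a : Ω) : ρ e a ≠ 1 := by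
  intro h
  have h0 : ρ e a (e.symm 0) = e.symm 0 := congrFun h _
  have h1 : ρ e a (e.symm 1) = e.symm 1 := congrFun h _
  unfold ρ at h0 h1
  simp only [Equiv.apply_symm_apply, EmbeddingLike.apply_eq_iff_eq] at h0 h1
  split_ifs at h0 h1 <;> omega

theorem ρ_injective (e : Ω ≃ ℕ) : Function.Injective (ρ e) := by
  intro a b h
  apply e.injective
  have key : ∀ i : ℕ, (i + 1 = e a ↔ i + 1 = e b) := by
    intro i
    have h0 : ρ e a (e.symm (2 * i)) = ρ e b (e.symm (2 * i)) := congrFun h _
    unfold ρ at h0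
    simp only [Equiv.apply_symm_apply, EmbeddingLike.apply_eq_iff_eq] at h0
    have h2 : 2 * i / 2 = i := by omega
    rw [h2] at h0
    constructor
    · intro h3
      by_contra h4
      rw [if_pos h3, if_neg h4] at h0
      omega
    · intro h3
      by_contra h4
      rw [if_pos h3, if_neg h4] at h0
      omega
  rcases Nat.eq_zero_or_pos (e a) with ha | ha
  · rcases Nat.eq_zero_or_pos (e b) with hb | hb
    · rw [ha, hb]
    · have := (key (e b - 1)).2 (by omega)
      omega
  · have := (key (e a - 1)).1 (by omega)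
    omega

theorem isClosed_S₀ : IsClosedMonoid (S₀ Ω) := by
  refine isClosed_of _ fun g hg => ?_
  by_cases h1 : g = 1
  · exact Or.inl h1
  · have h2 : ∃ p, g p ≠ p := by
      by_contra h
      push Not at h
      exact h1 (funext h)
    obtain ⟨p, hp⟩ := h2
    refine Or.inr ⟨g p, funext fun x => ?_⟩
    classical
    obtain ⟨r, hr, hrB⟩ := hg {p, x}
    have hrp := hrB p (by simp)
    have hrx := hrB x (by simp)
    rcases hr with rfl | ⟨a, rfl⟩
    · exact absurd hrp.symm hp
    · exact hrx.symm.trans hrp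

theorem isClosed_T₀ (e : Ω ≃ ℕ) : IsClosedMonoid (T₀ e) := by
  refine isClosed_of _ fun g hg => ?_
  by_cases h1 : g = 1
  · exact Or.inl h1
  · have h2 : ∃ p, g p ≠ p := by
      by_contra h
      push Not at h
      exact h1 (funext h)
    obtain ⟨p, hp⟩ := h2
    classical
    by_cases h3 : ∃ n, g n ≠ e.symm (2 * (e n / 2))
    · obtain ⟨n, hn⟩ := h3
      refine Or.inr ⟨e.symm (e n / 2 + 1), funext fun x => ?_⟩
      obtain ⟨r, hr, hrB⟩ := hg {p, n, x}
      have hrp := hrB p (by simp)
      have hrn := hrB n (by simp)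
      have hrx := hrB x (by simp)
      rcases hr with rfl | ⟨a, rfl⟩
      · exact absurd hrp.symm hp
      · rw [← hrn] at hn
        rw [← hrx]
        have h4 : e n / 2 + 1 = e a := by
          by_contra h5
          apply hn
          unfold ρ
          rw [if_neg h5, add_zero]
        rw [h4, Equiv.symm_apply_apply]
    · push Not at h3
      refine Or.inr ⟨e.symm 0, funext fun x => ?_⟩
      rw [h3 x]
      unfold ρ
      rw [Equiv.apply_symm_apply, if_neg (by omega), add_zero]

theorem discrete_S₀ [Nontrivial Ω] : DiscreteTopology (S₀ Ω) := by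
  rw [discreteTopology_iff_nhds]
  intro x
  obtain ⟨a, b, hab⟩ := exists_pair_ne Ω
  apply le_antisymm _ (pure_le_nhds x)
  rw [Filter.le_pure_iff]
  have h0 : Tendsto (fun y : S₀ Ω => y.1) (𝓝 x) (𝓝 x.1) := continuous_subtype_val.tendsto x
  rw [tendsto_iff] at h0
  filter_upwards [h0 a, h0 b] with y hya hyb
  rw [Set.mem_singleton_iff]
  apply Subtype.ext
  obtain ⟨x, hx⟩ := x
  obtain ⟨y, hy⟩ := y
  rcases hx with rfl | ⟨c, rfl⟩ <;> rcases hy with rfl | ⟨d, rfl⟩
  · rfl
  · exact absurd ((show d = a from hya).symm.trans (show d = b from hyb)) hab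
  · exact absurd ((show a = c from hya).trans (show b = c from hyb).symm) hab
  · exact congrArg (fun z => fun _ => z) (show d = c from hya)

theorem automaticContinuity_S₀ [Nontrivial Ω] : AutomaticContinuity (S₀ Ω) := by
  intro T _ φ
  have := discrete_S₀ (Ω := Ω)
  exact continuous_of_discreteTopology

open Classical in
/-- The isomorphism from `S₀` onto `T₀`. -/
noncomputable def iso (e : Ω ≃ ℕ) (x : S₀ Ω) : T₀ e :=
  if x.1 = 1 then 1 else ⟨ρ e (x.1 (e.symm 0)), Or.inr ⟨_, rfl⟩⟩

theorem iso_one (e : Ω ≃ ℕ) (x : S₀ Ω) (h : x.1 = 1) : iso e x = 1 := if_pos h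

theorem const_ne_one (e : Ω ≃ ℕ) (a : Ω) (f : Function.End Ω) (hf : f = fun _ => a) : f ≠ 1 := by
  intro h
  rw [hf] at h
  have h0 : a = e.symm 0 := congrFun h _
  have h1 : a = e.symm 1 := congrFun h _
  have := e.symm.injective (h0.symm.trans h1)
  omega

theorem iso_const (e : Ω ≃ ℕ) (x : S₀ Ω) (a : Ω) (h : x.1 = fun _ => a) :
    (iso e x).1 = ρ e a := by
  unfold iso
  rw [if_neg (const_ne_one e a x.1 h)]
  change ρ e (x.1 (e.symm 0)) = ρ e a
  rw [h]

theorem iso_mul (e : Ω ≃ ℕ) (x y : S₀ Ω) : iso e (x * y) = iso e x * iso e y := by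
  rcases x.2 with hx | ⟨a, hx⟩
  · have : x = 1 := Subtype.ext hx
    rw [this, one_mul, iso_one e 1 rfl, one_mul]
  · rcases y.2 with hy | ⟨b, hy⟩
    · have : y = 1 := Subtype.ext hy
      rw [this, mul_one, iso_one e 1 rfl, mul_one]
    · apply Subtype.ext
      rw [iso_const e (x * y) a (by change x.1 * y.1 = _; rw [hx]; rfl)]
      change _ = (iso e x).1 * (iso e y).1
      rw [iso_const e x a hx, iso_const e y b hy, ρ_mul]

theorem iso_bijective (e : Ω ≃ ℕ) : Function.Bijective (iso e) := by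
  constructor
  · intro x y h
    have h' : (iso e x).1 = (iso e y).1 := congrArg Subtype.val h
    rcases x.2 with hx | ⟨a, hx⟩ <;> rcases y.2 with hy | ⟨b, hy⟩
    · exact Subtype.ext (hx.trans hy.symm)
    · rw [iso_one e x hx, iso_const e y b hy] at h'
      exact absurd h'.symm (ρ_ne_one e b)
    · rw [iso_one e y hy, iso_const e x a hx] at h'
      exact absurd h' (ρ_ne_one e a)
    · rw [iso_const e x a hx, iso_const e y b hy] at h'
      apply Subtype.ext
      rw [hx, hy, ρ_injective e h']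
  · rintro ⟨t, rfl | ⟨a, rfl⟩⟩
    · exact ⟨1, Subtype.ext (congrArg Subtype.val (iso_one e 1 rfl))⟩
    · exact ⟨⟨fun _ => a, Or.inr ⟨a, rfl⟩⟩, Subtype.ext (iso_const e _ a rfl)⟩

theorem not_automaticHomeomorphicity_S₀ (e : Ω ≃ ℕ) : ¬ AutomaticHomeomorphicity (S₀ Ω) := by
  intro h
  let φ : S₀ Ω ≃* T₀ e := MulEquiv.ofBijective (⟨iso e, iso_mul e⟩ : S₀ Ω →ₙ* T₀ e)
    (iso_bijective e)
  have hφ := h (T₀ e) (isClosed_T₀ e) φ
  let c : ℕ → S₀ Ω := fun k => ⟨fun _ => e.symm k, Or.inr ⟨_, rfl⟩⟩
  have hc : ∀ k, (φ (c k)).1 = ρ e (e.symm k) := fun k => iso_const e (c k) _ rfl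
  have h1 : Tendsto (fun k => φ (c k)) atTop (𝓝 (φ (c 0))) := by
    rw [Topology.IsInducing.subtypeVal.tendsto_nhds_iff, tendsto_iff]
    intro a
    filter_upwards [eventually_gt_atTop (e a / 2 + 1)] with k hk
    change (φ (c k)).1 a = (φ (c 0)).1 a
    rw [hc, hc]
    unfold ρ
    rw [Equiv.apply_symm_apply, Equiv.apply_symm_apply, if_neg (by omega), if_neg (by omega)]
  have h2 : Tendsto c atTop (𝓝 (c 0)) := by
    rw [hφ.isInducing.tendsto_nhds_iff]
    exact h1
  rw [Topology.IsInducing.subtypeVal.tendsto_nhds_iff, tendsto_iff] at h2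
  have h3 := h2 (e.symm 0)
  obtain ⟨k, hk, hk'⟩ := (h3.and (eventually_gt_atTop 0)).exists
  have h4 : e.symm k = e.symm 0 := hk
  have := e.symm.injective h4
  omega

end example_

/-- **Q1, positive answer.**  For every countably infinite set `Ω` there is a closed submonoid of
`Ω^Ω` that has automatic continuity with respect to the class of closed submonoids of `Ω^Ω` but
does not have automatic homeomorphicity with respect to that class. -/
theorem result (Ω : Type) [Countable Ω] [Infinite Ω] :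
    ∃ S : Submonoid (Function.End Ω), IsClosedMonoid S ∧ AutomaticContinuity S ∧
      ¬ AutomaticHomeomorphicity S := by
  obtain ⟨hd⟩ := nonempty_denumerable Ω
  exact ⟨S₀ Ω, isClosed_S₀, automaticContinuity_S₀,
    not_automaticHomeomorphicity_S₀ (Denumerable.eqv Ω)⟩

end Pool.Agent.Results.MP_fafee5_lc.DiscreteExample
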