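import Mathlib

/-!
# MP_fafee5_lc, Q2: oligomorphic closed transformation monoids

`Ω` is a countable set, `Ω^Ω` is the monoid of all its self-maps with the topology of pointwise
convergence (`Ω` discrete).  `𝓜` is the class of closed submonoids of `Ω^Ω`.

We prove that an oligomorphic member of `𝓜` that has automatic continuity with respect to `𝓜` has
automatic homeomorphicity with respect to `𝓜`.  So Q2 has a negative answer.
-/

namespace Pool.Agent.Results.MP_fafee5_lc.OligomorphicRigid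

/-- The topology of pointwise convergence on `Ω^Ω`, with `Ω` discrete. -/
instance pointwise (Ω : Type*) : TopologicalSpace (Function.End Ω) :=
  @Pi.topologicalSpace Ω (fun _ => Ω) (fun _ => ⊥)

/-- Membership in the class `𝓜` of closed submonoids of `Ω^Ω`. -/
def IsClosedMonoid {Ω : Type*} (S : Submonoid (Function.End Ω)) : Prop :=
  IsClosed (S : Set (Function.End Ω))

/-- Automatic continuity with respect to `𝓜`: every semigroup homomorphism to a member of `𝓜`
is continuous. -/
def AutomaticContinuity {Ω : Type*} (S : Submonoid (Function.End Ω)) : Prop :=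
  ∀ T : Submonoid (Function.End Ω), IsClosedMonoid T → ∀ φ : S →ₙ* T, Continuous φ

/-- Automatic homeomorphicity with respect to `𝓜`: every semigroup isomorphism onto a member of
`𝓜` is a homeomorphism. -/
def AutomaticHomeomorphicity {Ω : Type*} (S : Submonoid (Function.End Ω)) : Prop :=
  ∀ T : Submonoid (Function.End Ω), IsClosedMonoid T → ∀ φ : S ≃* T, IsHomeomorph φ

/-- `S` is oligomorphic: its group of invertible elements has only finitely many orbits on `Ω^n`,
for every `n`. -/
def Oligomorphic {Ω : Type*} (S : Submonoid (Function.End Ω)) : Prop :=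
  ∀ n : ℕ, Finite (MulAction.orbitRel.Quotient (↥S)ˣ (Fin n → Ω))

open Filter Topology

section basics

variable {Ω : Type*}

theorem tendsto_iff {X : Type*} (U : Filter X) (f : X → Function.End Ω) (g : Function.End Ω) :
    Tendsto f U (𝓝 g) ↔ ∀ a, ∀ᶠ x in U, f x a = g a := by
  let _ : TopologicalSpace Ω := ⊥
  have _ : DiscreteTopology Ω := ⟨rfl⟩
  have h := @tendsto_pi_nhds X Ω (fun _ => Ω) _ (fun x => (f x : Ω → Ω)) (g : Ω → Ω) U
  refine Iff.trans h ?_
  refine forall_congr' fun a => ?_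
  rw [nhds_discrete, tendsto_pure]

theorem exists_finset_aux (g : Ω → Ω) (V : Set (Ω → Ω))
    (hV : V ∈ @nhds (Ω → Ω) (@Pi.topologicalSpace Ω (fun _ => Ω) (fun _ => ⊥)) g) :
    ∃ B : Finset Ω, ∀ r : Ω → Ω, (∀ b ∈ B, r b = g b) → r ∈ V := by
  let _ : TopologicalSpace Ω := ⊥
  have _ : DiscreteTopology Ω := ⟨rfl⟩
  rw [nhds_pi, Filter.mem_pi'] at hV
  obtain ⟨I, t, ht, hI⟩ := hV
  refine ⟨I, fun r hr => hI ?_⟩
  intro i hi
  rw [hr i hi]
  exact mem_of_mem_nhds (ht i)

theorem exists_finset_of_mem_nhds {g : Function.End Ω} {V : Set (Function.End Ω)} (hV : V ∈ 𝓝 g) :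
    ∃ B : Finset Ω, ∀ r : Function.End Ω, (∀ b ∈ B, r b = g b) → r ∈ V :=
  exists_finset_aux g V hV

theorem mem_of_forall_finset {S : Submonoid (Function.End Ω)} (hS : IsClosedMonoid S)
    {g : Function.End Ω} (h : ∀ B : Finset Ω, ∃ r ∈ S, ∀ b ∈ B, r b = g b) : g ∈ S := by
  have : g ∈ closure (S : Set (Function.End Ω)) := by
    rw [mem_closure_iff_nhds]
    intro V hV
    obtain ⟨B, hB⟩ := exists_finset_of_mem_nhds hV
    obtain ⟨r, hrS, hr⟩ := h B
    exact ⟨r, hB r hr, hrS⟩
  rwa [hS.closure_eq] at this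

end basics

section key

variable {Ω : Type*} {S : Submonoid (Function.End Ω)}

/-- The map of `Ω` given by a unit of `S`. -/
def um (g : (↥S)ˣ) : Ω → Ω := ((g : S) : Function.End Ω)

theorem um_mul (g h : (↥S)ˣ) (a : Ω) : um (g * h) a = um g (um h a) := rfl

theorem um_injective (g : (↥S)ˣ) : Function.Injective (um g) := by
  intro a b hab
  have h : ∀ c : Ω, um g⁻¹ (um g c) = c := fun c => by
    rw [← um_mul, inv_mul_cancel]; rfl
  rw [← h a, ← h b, hab]

theorem Oligomorphic.finite_colour (h : Oligomorphic S) (ι : Type) [Finite ι] :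
    ∃ (n : ℕ) (q : (ι → Ω) → MulAction.orbitRel.Quotient (↥S)ˣ (Fin n → Ω)),
      ∀ t t' : ι → Ω, q t = q t' → ∃ g : (↥S)ˣ, ∀ i, um g (t i) = t' i := by
  obtain ⟨n, ⟨e⟩⟩ := Finite.exists_equiv_fin ι
  refine ⟨n, fun t => Quotient.mk _ (t ∘ e.symm), fun t t' htt => ?_⟩
  have h1 := Quotient.exact htt.symm
  obtain ⟨g, hg⟩ := h1
  refine ⟨g, fun i => ?_⟩
  have h2 : um g ((t ∘ e.symm) (e i)) = (t' ∘ e.symm) (e i) := congrFun hg (e i)
  simpa using h2

/-- One step of the construction: an initial segment that is realised for almost all `x` can be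
extended by one more value. -/
theorem step (hol : Oligomorphic S) {X : Type*} (U : Ultrafilter X) (s : X → Ω → Ω) (b : ℕ → Ω)
    (n : ℕ) (y : ℕ → Ω × Ω)
    (hy : ∀ᶠ x in (U : Filter X), ∃ g : (↥S)ˣ, ∀ i < n, um g (b i) = (y i).1 ∧
      um g (s x (b i)) = (y i).2) :
    ∃ z : Ω × Ω, ∀ᶠ x in (U : Filter X), ∃ g : (↥S)ˣ, (∀ i < n, um g (b i) = (y i).1 ∧
      um g (s x (b i)) = (y i).2) ∧ um g (b n) = z.1 ∧ um g (s x (b n)) = z.2 := by
  obtain ⟨m, q, hq⟩ := hol.finite_colour (Fin (n + 1) ⊕ Fin (n + 1))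
  have _ := hol m
  let t : X → (Fin (n + 1) ⊕ Fin (n + 1)) → Ω :=
    fun x => Sum.elim (fun i => b i) (fun i => s x (b i))
  obtain ⟨c, hc⟩ := Ultrafilter.eq_pure_of_finite (U.map fun x => q (t x))
  have hc' : ∀ᶠ x in (U : Filter X), q (t x) = c := by
    have : {c} ∈ U.map fun x => q (t x) := by rw [hc]; exact Set.mem_singleton c
    exact this
  obtain ⟨x0, hx0, g0, hg0⟩ := (hc'.and hy).exists
  refine ⟨(um g0 (b n), um g0 (s x0 (b n))), ?_⟩
  filter_upwards [hc'] with x hx
  obtain ⟨h, hh⟩ := hq (t x) (t x0) (hx.trans hx0.symm)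
  have hl : ∀ i < n + 1, um h (b i) = b i := fun i hi => hh (Sum.inl ⟨i, hi⟩)
  have hr : ∀ i < n + 1, um h (s x (b i)) = s x0 (b i) := fun i hi => hh (Sum.inr ⟨i, hi⟩)
  refine ⟨g0 * h, ?_, ?_, ?_⟩
  · intro i hi
    rw [um_mul, um_mul, hl i (by omega), hr i (by omega)]
    exact hg0 i hi
  · rw [um_mul, hl n (by omega)]
  · rw [um_mul, hr n (by omega)]

theorem exists_limit_seq (hol : Oligomorphic S) {X : Type*} (U : Ultrafilter X) (s : X → Ω → Ω)
    (b : ℕ → Ω) :
    ∃ y : ℕ → Ω × Ω, ∀ n, ∀ᶠ x in (U : Filter X), ∃ g : (↥S)ˣ, ∀ i < n, um g (b i) = (y i).1 ∧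
      um g (s x (b i)) = (y i).2 := by
  classical
  -- approximations: functions agreeing with the final one up to `n`
  let P : ℕ → (ℕ → Ω × Ω) → Prop := fun n y =>
    ∀ᶠ x in (U : Filter X), ∃ g : (↥S)ˣ, ∀ i < n, um g (b i) = (y i).1 ∧
      um g (s x (b i)) = (y i).2
  have hstep : ∀ n (y : {y // P n y}), ∃ y' : {y // P (n + 1) y}, ∀ i < n, y'.1 i = y.1 i := by
    intro n y
    obtain ⟨z, hz⟩ := step hol U s b n y.1 y.2
    refine ⟨⟨Function.update y.1 n z, ?_⟩, ?_⟩
    · filter_upwards [hz] with x hx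
      obtain ⟨g, h1, h2, h3⟩ := hx
      refine ⟨g, fun i hi => ?_⟩
      rcases Nat.lt_succ_iff_lt_or_eq.1 hi with h | h
      · rw [Function.update_of_ne (by omega)]; exact h1 i h
      · subst h; rw [Function.update_self]; exact ⟨h2, h3⟩
    · intro i hi
      exact Function.update_of_ne (by omega) _ _
  choose F hF using hstep
  let Y : ∀ n, {y // P n y} := fun n =>
    Nat.rec (motive := fun n => {y // P n y})
      ⟨fun _ => (b 0, b 0), Eventually.of_forall fun _ => ⟨1, fun i hi => (Nat.not_lt_zero i hi).elim⟩⟩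
      (fun n y => F n y) n
  have hY : ∀ n, ∀ i < n, (Y (n + 1)).1 i = (Y n).1 i := fun n i hi => hF n (Y n) i hi
  have hY' : ∀ i k, (Y (i + 1 + k)).1 i = (Y (i + 1)).1 i := by
    intro i k
    induction k with
    | zero => rfl
    | succ k ih => rw [← ih]; exact hY (i + 1 + k) i (by omega)
  refine ⟨fun i => (Y (i + 1)).1 i, fun n => ?_⟩
  filter_upwards [(Y n).2] with x hx
  obtain ⟨g, hg⟩ := hx
  refine ⟨g, fun i hi => ?_⟩
  have := hY' i (n - (i + 1))
  rw [show i + 1 + (n - (i + 1)) = n by omega] at this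
  rw [← this]
  exact hg i hi

/-- Left multiplication by suitable units makes an ultrafilter of pairs `(1, s x)` converge. -/
theorem exists_limit [Countable Ω] [Nonempty Ω] (hol : Oligomorphic S) {X : Type*}
    (U : Ultrafilter X) (s : X → Ω → Ω) :
    ∃ e s' : Ω → Ω, ∀ B : Finset Ω, ∀ᶠ x in (U : Filter X), ∃ g : (↥S)ˣ,
      ∀ a ∈ B, um g a = e a ∧ um g (s x a) = s' a := by
  obtain ⟨b, hb⟩ := exists_surjective_nat Ω
  obtain ⟨y, hy⟩ := exists_limit_seq hol U s b
  choose idx hidx using hb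
  refine ⟨fun a => (y (idx a)).1, fun a => (y (idx a)).2, fun B => ?_⟩
  filter_upwards [hy (B.sup idx + 1)] with x hx
  obtain ⟨g, hg⟩ := hx
  refine ⟨g, fun a ha => ?_⟩
  have h := hg (idx a) (Nat.lt_succ_of_le (Finset.le_sup ha))
  rwa [hidx a] at h

end key

section main

variable {Ω : Type*}

/-- A continuous isomorphism from an oligomorphic closed monoid onto a closed monoid has a
continuous inverse. -/
theorem continuous_symm [Countable Ω] [Nonempty Ω] {S T : Submonoid (Function.End Ω)}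
    (hS : IsClosedMonoid S) (hol : Oligomorphic S) (φ : S ≃* T) (hφ : Continuous φ) :
    Continuous φ.symm := by
  rw [continuous_iff_ultrafilter]
  intro t U hU
  rw [Topology.IsInducing.subtypeVal.tendsto_nhds_iff, tendsto_iff]
  intro a
  -- the family indexed by `T` itself
  set s : T → S := fun x => φ.symm x with hs
  obtain ⟨e, s', hes⟩ := exists_limit hol U (fun x => ((s x : S) : Function.End Ω))
  have heS : (e : Function.End Ω) ∈ S := by
    refine mem_of_forall_finset hS fun B => ?_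
    obtain ⟨x, g, hg⟩ := (hes B).exists
    exact ⟨((g : S) : Function.End Ω), (g : S).2, fun b hb => (hg b hb).1⟩
  have hs'S : (s' : Function.End Ω) ∈ S := by
    refine mem_of_forall_finset hS fun B => ?_
    obtain ⟨x, g, hg⟩ := (hes B).exists
    exact ⟨(((g : S) * s x : S) : Function.End Ω), ((g : S) * s x : S).2,
      fun b hb => (hg b hb).2⟩
  have hloc : ∀ (r : S) (p : Ω), ∃ B : Finset Ω, ∀ r' : S, (∀ b ∈ B, r'.1 b = r.1 b) →
      (φ r').1 p = (φ r).1 p := by
    intro r p
    have h1 : Tendsto (fun r' : S => (φ r').1) (𝓝 r) (𝓝 (φ r).1) :=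
      (continuous_subtype_val.comp hφ).tendsto r
    rw [tendsto_iff] at h1
    have h2 := h1 p
    rw [nhds_subtype, eventually_comap] at h2
    obtain ⟨B, hB⟩ := exists_finset_of_mem_nhds h2
    exact ⟨B, fun r' hr' => hB r'.1 hr' r' rfl⟩
  -- `s' = e * φ.symm t`
  have hU' : ∀ p : Ω, ∀ᶠ x in (U : Filter T), x.1 p = t.1 p := by
    have h1 : Tendsto (fun x : T => x.1) U (𝓝 t.1) :=
      (continuous_subtype_val.tendsto t).mono_left hU
    rwa [tendsto_iff] at h1
  have hkey : (⟨s', hs'S⟩ : S) = ⟨e, heS⟩ * φ.symm t := by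
    apply φ.injective
    apply Subtype.ext
    funext p
    rw [map_mul, MulEquiv.apply_symm_apply]
    obtain ⟨B1, hB1⟩ := hloc ⟨s', hs'S⟩ p
    obtain ⟨B2, hB2⟩ := hloc ⟨e, heS⟩ (t.1 p)
    classical
    obtain ⟨x, ⟨g, hg⟩, hx⟩ := ((hes (B1 ∪ B2)).and (hU' p)).exists
    have h1 := hB1 ((g : S) * s x) (fun b hb => (hg b (Finset.mem_union_left _ hb)).2)
    have h2 := hB2 (g : S) (fun b hb => (hg b (Finset.mem_union_right _ hb)).1)
    rw [← h1, map_mul, hs, MulEquiv.apply_symm_apply]
    change (φ (g : S)).1 (x.1 p) = (φ ⟨e, heS⟩).1 (t.1 p)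
    rw [hx, h2]
  classical
  filter_upwards [hes {a, (φ.symm t).1 a}] with x hx
  obtain ⟨g, hg⟩ := hx
  have h1 := (hg a (by simp)).2
  have h2 := (hg ((φ.symm t).1 a) (by simp)).1
  have h3 : s' a = e ((φ.symm t).1 a) := congrFun (congrArg Subtype.val hkey) a
  apply um_injective g
  change um g ((s x).1 a) = um g ((φ.symm t).1 a)
  rw [h1, h2, h3]

end main

/-- **Q2, negative answer.**  Let `Ω` be a countably infinite set and let `S` be a closed submonoid
of `Ω^Ω` that is oligomorphic.  If `S` has automatic continuity with respect to the class of closed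
submonoids of `Ω^Ω`, then `S` has automatic homeomorphicity with respect to that class. -/
theorem result (Ω : Type) [Countable Ω] [Infinite Ω] (S : Submonoid (Function.End Ω))
    (hS : IsClosedMonoid S) (hol : Oligomorphic S) (hac : AutomaticContinuity S) :
    AutomaticHomeomorphicity S := by
  intro T hT φ
  have hφ : Continuous φ := hac T hT (φ : S →ₙ* T)
  rw [isHomeomorph_iff_exists_inverse]
  exact ⟨hφ, φ.symm, φ.left_inv, φ.right_inv, continuous_symm hS hol φ hφ⟩

end Pool.Agent.Results.MP_fafee5_lc.OligomorphicRigid
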